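import Pool.Agent.N783.CF.WR

/-!
# Project WR, leaf FR1: a Frobenius element for finitely many integers
-/

set_option autoImplicit false

open Polynomial NumberField

namespace Pool.Agent.N710.WR

/-- A finite domain in which `x ^ q = x` for all `x`, of characteristic `q`, has `q` elements. -/
lemma card_eq_of_pow {k : Type*} [CommRing k] [IsDomain k] [Finite k] {q : ℕ} (hq : q.Prime)
    (h0 : (q : k) = 0) (hpow : ∀ x : k, x ^ q = x) : Nat.card k = q := by
  have hfk : Fintype k := Fintype.ofFinite k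
  classical
  apply le_antisymm
  · rw [Nat.card_eq_fintype_card]
    have hdeg : (X ^ q - X : k[X]).natDegree = q := by
      rw [natDegree_sub_eq_left_of_natDegree_lt, natDegree_X_pow]
      rw [natDegree_X_pow, natDegree_X]
      exact hq.one_lt
    have hne : (X ^ q - X : k[X]) ≠ 0 := by
      intro h
      rw [h, natDegree_zero] at hdeg
      exact hq.ne_zero hdeg.symm
    have h1 : (Finset.univ : Finset k) ⊆ (X ^ q - X : k[X]).roots.toFinset := by
      intro x _
      rw [Multiset.mem_toFinset, mem_roots hne, IsRoot.def, eval_sub, eval_pow, eval_X, hpow,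
        sub_self]
    have h2 := Finset.card_le_card h1
    have h3 := Multiset.toFinset_card_le (X ^ q - X : k[X]).roots
    have h4 := card_roots' (X ^ q - X : k[X])
    rw [hdeg] at h4
    rw [Finset.card_univ] at h2
    omega
  · have hfact : Fact q.Prime := ⟨hq⟩
    have h1 : addOrderOf (1 : k) = q := by
      apply addOrderOf_eq_prime
      · rw [nsmul_eq_mul, mul_one, h0]
      · exact one_ne_zero
    have h2 : addOrderOf (1 : k) ∣ Nat.card k := addOrderOf_dvd_natCard (1 : k)
    rw [h1] at h2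
    exact Nat.le_of_dvd Nat.card_pos h2

lemma fin_under (A : Type*) {B : Type*} [CommRing A] [CommRing B] [Algebra A B] (Q : Ideal B)
    (h : Finite (B ⧸ Q)) : Finite (A ⧸ Q.under A) :=
  .of_injective _ Ideal.algebraMap_quotient_injective

lemma dom_under (A : Type*) {B : Type*} [CommRing A] [CommRing B] [Algebra A B] (Q : Ideal B)
    (h : Q.IsPrime) : IsDomain (A ⧸ Q.under A) := inferInstance

theorem t_FR1 : Pool.Agent.N783.CF.S_FR1 := by
  intro K _ _ T 𝔔 q hq h𝔔 hq𝔔 hK
  classical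
  -- a finite Galois extension containing `T`
  set S : Set (AlgebraicClosure K) := (fun t : integralClosure ℤ (AlgebraicClosure K) =>
    (t : AlgebraicClosure K)) '' (T : Set (integralClosure ℤ (AlgebraicClosure K))) with hS
  have hSfin : S.Finite := T.finite_toSet.image _
  let N₀ : IntermediateField K (AlgebraicClosure K) := IntermediateField.adjoin K S
  have hN₀ : FiniteDimensional K N₀ := by
    have : Finite S := hSfin
    exact IntermediateField.finiteDimensional_adjoin (fun x _ => Algebra.IsIntegral.isIntegral x)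
  let N : IntermediateField K (AlgebraicClosure K) :=
    IntermediateField.normalClosure K N₀ (AlgebraicClosure K)
  have hNfin : FiniteDimensional K N := normalClosure.is_finiteDimensional K N₀ _
  have hNnor : Normal K N := normalClosure.normal K N₀ _
  have hNgal : IsGalois K N := ⟨⟩
  have hNnf : NumberField N := NumberField.of_module_finite K N
  have hle : N₀ ≤ N := IntermediateField.le_normalClosure _
  -- the map to the integers of the closure
  let ι : 𝓞 N →+* integralClosure ℤ (AlgebraicClosure K) :=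
    { toFun := fun x => ⟨algebraMap N (AlgebraicClosure K) (x : N),
        (NumberField.RingOfIntegers.isIntegral_coe x).map
          ((algebraMap N (AlgebraicClosure K)).toIntAlgHom)⟩
      map_one' := by ext; simp
      map_mul' := fun x y => by ext; simp
      map_zero' := by ext; simp
      map_add' := fun x y => by ext; simp }
  have hι : ∀ x : 𝓞 N, ((ι x : integralClosure ℤ (AlgebraicClosure K)) : AlgebraicClosure K) =
    algebraMap N (AlgebraicClosure K) (x : N) := fun x => rfl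
  let Q : Ideal (𝓞 N) := 𝔔.comap ι
  have hQp : Q.IsPrime := Ideal.IsPrime.comap ι
  have hqQ : (q : 𝓞 N) ∈ Q := by
    show ι (q : 𝓞 N) ∈ 𝔔
    rw [map_natCast]
    exact hq𝔔
  have hQne : Q ≠ ⊥ := by
    intro h
    rw [h, Ideal.mem_bot] at hqQ
    exact hq.ne_zero (by exact_mod_cast hqQ)
  have hQfin : Finite (𝓞 N ⧸ Q) := Ideal.finiteQuotientOfFreeOfNeBot Q hQne
  have hinv : Algebra.IsInvariant (𝓞 K) (𝓞 N) (𝓞 N ≃ₐ[𝓞 K] 𝓞 N) :=
    Algebra.isInvariant_of_isGalois' (𝓞 K) K N (𝓞 N)
  have hGfin : Finite (𝓞 N ≃ₐ[𝓞 K] 𝓞 N) :=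
    Finite.of_equiv _ (galRestrict (𝓞 K) K N (𝓞 N)).toEquiv
  obtain ⟨σ, hσ⟩ := IsArithFrobAt.exists_of_isInvariant (𝓞 K) (𝓞 N ≃ₐ[𝓞 K] 𝓞 N) Q
  -- the residue field of `K`
  have hP : ∀ a : 𝓞 K, a ^ q - a ∈ Q.under (𝓞 K) := by
    intro a
    obtain ⟨y, hy, hy2⟩ := hK a
    show ι (algebraMap (𝓞 K) (𝓞 N) (a ^ q - a)) ∈ 𝔔
    have h1 : ι (algebraMap (𝓞 K) (𝓞 N) (a ^ q - a)) = y := by
      apply Subtype.ext
      rw [hy2, hι]
      rfl
    rw [h1]
    exact hy
  have hcard : Nat.card (𝓞 K ⧸ Q.under (𝓞 K)) = q := by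
    have hPfin : Finite (𝓞 K ⧸ Q.under (𝓞 K)) := fin_under (𝓞 K) Q hQfin
    have hPdom : IsDomain (𝓞 K ⧸ Q.under (𝓞 K)) := dom_under (𝓞 K) Q hQp
    refine card_eq_of_pow hq ?_ ?_
    · have h1 : (q : 𝓞 K) ∈ Q.under (𝓞 K) := by
        show algebraMap (𝓞 K) (𝓞 N) (q : 𝓞 K) ∈ Q
        rw [map_natCast]
        exact hqQ
      have h2 := Ideal.Quotient.eq_zero_iff_mem.mpr h1
      rw [map_natCast] at h2
      exact h2
    · intro x
      obtain ⟨a, rfl⟩ := Ideal.Quotient.mk_surjective x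
      have h1 := Ideal.Quotient.eq_zero_iff_mem.mpr (hP a)
      rw [map_sub, map_pow, sub_eq_zero] at h1
      exact h1
  -- the lift
  let σ' : N ≃ₐ[K] N := (galRestrict (𝓞 K) K N (𝓞 N)).symm σ
  have hσ' : ∀ x : 𝓞 N, ((σ x : 𝓞 N) : N) = σ' (x : N) := by
    intro x
    have h1 := algebraMap_galRestrict_apply (𝓞 K) (K := K) (L := N) (B := 𝓞 N) σ' x
    have h2 : galRestrict (𝓞 K) K N (𝓞 N) σ' = σ :=
      (galRestrict (𝓞 K) K N (𝓞 N)).apply_symm_apply σ
    rw [h2] at h1
    exact h1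
  refine ⟨AlgEquiv.liftNormal σ' (AlgebraicClosure K), ?_⟩
  intro t ht
  have htN : (t : AlgebraicClosure K) ∈ N :=
    hle (IntermediateField.subset_adjoin K S ⟨t, ht, rfl⟩)
  let tN : N := ⟨(t : AlgebraicClosure K), htN⟩
  have htint : IsIntegral ℤ tN := by
    have h1 : IsIntegral ℤ (algebraMap N (AlgebraicClosure K) tN) := t.2
    exact (isIntegral_algebraMap_iff (FaithfulSMul.algebraMap_injective N
      (AlgebraicClosure K))).mp h1
  let t0 : 𝓞 N := ⟨tN, htint⟩
  have h1 : σ t0 - t0 ^ q ∈ Q := by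
    have h2 := hσ t0
    rw [hcard] at h2
    exact h2
  refine ⟨ι (σ t0 - t0 ^ q), h1, ?_⟩
  rw [hι]
  have h3 : ((σ t0 - t0 ^ q : 𝓞 N) : N) = σ' tN - tN ^ q := by
    have h4 : ((σ t0 - t0 ^ q : 𝓞 N) : N) = ((σ t0 : 𝓞 N) : N) - ((t0 : 𝓞 N) : N) ^ q := by
      push_cast
      rfl
    have h6 : ((t0 : 𝓞 N) : N) = tN := rfl
    rw [h4, hσ', h6]
  rw [h3, map_sub, map_pow]
  have h5 := AlgEquiv.liftNormal_commutes σ' (AlgebraicClosure K) tN
  rw [← h5]
  rfl

end Pool.Agent.N710.WR
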